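import Pool.Agent.helper17.EXT.Spec

/-!
# Project EXT, row SIG (helper44)
-/

set_option autoImplicit false

open Finset

namespace Pool.Agent.EXT

open Pool.Agent.EXC

theorem SIG_pn (i : Fin 6) : pn (pn i) = i := by
  revert i
  decide

/-- the symmetry as an equivalence of the nodes -/
def SIG_e : Fin 6 ≃ Fin 6 := ⟨pn, pn, SIG_pn, SIG_pn⟩

section
variable {K : Type} [Field K] (τ : K ≃+* K)

theorem SIG_cf (h1 : ∀ v w, ip C6 (pv v) (pv w) = ip C6 v w) (v : Lm C6 K) (w : Fin 6 → ℤ) :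
    cf (si τ v) w = (sn w : K) * τ (cf v (pv w)) := by
  by_cases hw : ip C6 w w = 2
  · have e : cf (si τ v) w = (si τ v).2 ⟨w, hw⟩ := by
      unfold cf
      rw [dif_pos hw]
    rw [e]
    rfl
  · rw [cf_eq_zero C6 _ hw, cf_eq_zero C6 v (by rw [h1]; exact hw), map_zero, mul_zero]

theorem SIG_fst (v : Lm C6 K) (i : Fin 6) : (si τ v).1 i = τ (v.1 (pn i)) := rfl

theorem SIG_ext {x y : Lm C6 K} (h1 : ∀ i, x.1 i = y.1 i) (h2 : ∀ γ, ip C6 γ γ = 2 → cf x γ = cf y γ) : x = y :=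
  Lm_ext C6 (funext h1) h2

theorem SIG_snd (x : Lm C6 K) (α : Rt C6) : x.2 α = cf x α.1 := by
  unfold cf
  rw [dif_pos α.2]

end

theorem SIG (hRTF : RTF_stmt) : SIG_stmt := by
  intro K _ τ hτ
  obtain ⟨r1, r2, r3, r4, r5, -, r7, r8, r9, -, -, r12, -, -, -⟩ := hRTF
  have hC : ∀ i j, C6 (pn i) (pn j) = C6 i j := by
    intro i j
    rw [← ip_sr_sr C6 (pn i) (pn j), ← r5, ← r5, r1, ip_sr_sr]
  have rsub : ∀ v w, pv (v - w) = pv v - pv w := by
    intro v w
    rw [sub_eq_add_neg, r3, r4, ← sub_eq_add_neg]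
  have hs1 : ∀ v, (sn v : K) * (sn v : K) = 1 := by
    intro v
    rcases r7 v with h | h <;> rw [h] <;> simp
  have hcf := SIG_cf τ r1
  let ρ : Rt C6 ≃ Rt C6 :=
    ⟨fun α => ⟨pv α.1, by rw [r1]; exact α.2⟩, fun α => ⟨pv α.1, by rw [r1]; exact α.2⟩,
      fun α => Subtype.ext (r2 α.1), fun α => Subtype.ext (r2 α.1)⟩
  have hρ : ∀ α : Rt C6, (ρ α).1 = pv α.1 := fun α => rfl
  have hadd : ∀ v w : Lm C6 K, si τ (v + w) = si τ v + si τ w := by
    intro v w
    refine SIG_ext (fun i => ?_) fun γ hγ => ?_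
    · rw [SIG_fst, Prod.fst_add, Prod.fst_add, Pi.add_apply, Pi.add_apply, map_add, SIG_fst, SIG_fst]
    · rw [hcf, cf_add, cf_add, map_add, mul_add, hcf, hcf]
  have hsmul : ∀ (c : K) (v : Lm C6 K), si τ (c • v) = τ c • si τ v := by
    intro c v
    refine SIG_ext (fun i => ?_) fun γ hγ => ?_
    · rw [SIG_fst, Prod.smul_fst, Prod.smul_fst, Pi.smul_apply, Pi.smul_apply, smul_eq_mul, smul_eq_mul, map_mul,
        SIG_fst]
    · rw [hcf, cf_smul, cf_smul, map_mul, hcf]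
      ring
  have hinv : ∀ v : Lm C6 K, si τ (si τ v) = v := by
    intro v
    refine SIG_ext (fun i => ?_) fun γ hγ => ?_
    · rw [SIG_fst, SIG_fst, hτ, SIG_pn]
    · rw [hcf, hcf, r8, r2, map_mul, map_intCast, hτ, ← mul_assoc, hs1, one_mul]
  have hev : ∀ (γ : Fin 6 → ℤ) (x : Lm C6 K), ev C6 γ (si τ x).1 = τ (ev C6 (pv γ) x.1) := by
    intro γ x
    unfold ev
    rw [map_sum, ← Equiv.sum_comp SIG_e]
    refine Finset.sum_congr rfl fun i _ => ?_
    rw [map_sum, ← Equiv.sum_comp SIG_e]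
    refine Finset.sum_congr rfl fun j _ => ?_
    show (γ (pn i) : K) * (C6 (pn i) (pn j) : K) * (si τ x).1 (pn j) = _
    rw [SIG_fst, SIG_pn, hC, map_mul, map_mul, map_intCast, map_intCast]
    rfl
  have hbr : ∀ v w : Lm C6 K, si τ (br C6 v w) = br C6 (si τ v) (si τ w) := by
    intro x y
    refine SIG_ext (fun i => ?_) fun γ hγ => ?_
    · rw [SIG_fst, br_fst, br_fst, Pi.neg_apply, Pi.neg_apply, map_neg, Finset.sum_apply, Finset.sum_apply,
        map_sum, ← Equiv.sum_comp ρ]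
      congr 1
      refine Finset.sum_congr rfl fun β _ => ?_
      rw [Pi.smul_apply, Pi.smul_apply, smul_eq_mul, smul_eq_mul, SIG_snd x, SIG_snd (si τ x), hρ, hcf, hcf,
        r9, r4, map_mul, map_mul, map_intCast]
      have e : ((pv β.1 (pn i) : ℤ) : K) = ((β.1 i : ℤ) : K) := by
        show ((β.1 (pn (pn i)) : ℤ) : K) = _
        rw [SIG_pn]
      rw [e]
      linear_combination (-(τ (cf x (pv β.1)) * τ (cf y (-pv β.1)) * ((β.1 i : ℤ) : K))) * hs1 β.1
    · have hγ' : ip C6 (pv γ) (pv γ) = 2 := by rw [r1]; exact hγ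
      rw [hcf, br_cf C6 _ _ hγ', br_cf C6 _ _ hγ, map_add, map_sub, map_mul, map_mul, map_sum, hev, hev, hcf, hcf,
        ← Equiv.sum_comp ρ (fun α => ((sg C6 α.1 (γ - α.1) : ℤ) : K) * (si τ x).2 α * cf (si τ y) (γ - α.1)),
        mul_add, Finset.mul_sum]
      have e1 : ∀ β : Rt C6, (sn γ : K) * τ (((sg C6 β.1 (pv γ - β.1) : ℤ) : K) * x.2 β * cf y (pv γ - β.1)) =
          ((sg C6 (ρ β).1 (γ - (ρ β).1) : ℤ) : K) * (si τ x).2 (ρ β) * cf (si τ y) (γ - (ρ β).1) := by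
        intro β
        rw [SIG_snd x, SIG_snd (si τ x), hρ, hcf, hcf, r8, r2, map_mul, map_mul, map_intCast]
        have e2 : γ - pv β.1 = pv (pv γ - β.1) := by rw [rsub, r2]
        have e3 : pv (γ - pv β.1) = pv γ - β.1 := by rw [rsub, r2]
        rw [e3, e2, r8]
        have h12 := r12 β.1 (pv γ - β.1)
        rw [add_sub_cancel, r8] at h12
        have h12' : ((sg C6 (pv β.1) (pv (pv γ - β.1)) : ℤ) : K) * ((sg C6 β.1 (pv γ - β.1) : ℤ) : K) =
            (sn γ : K) * (sn β.1 : K) * (sn (pv γ - β.1) : K) := by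
          exact_mod_cast congrArg (Int.cast : ℤ → K) h12
        have h13 := sg_sq (F := K) C6 β.1 (pv γ - β.1)
        have h14 : ((sg C6 (pv β.1) (pv (pv γ - β.1)) : ℤ) : K) =
            (sn γ : K) * (sn β.1 : K) * (sn (pv γ - β.1) : K) * ((sg C6 β.1 (pv γ - β.1) : ℤ) : K) := by
          rw [← h12', mul_assoc, h13, mul_one]
        rw [h14]
        have a1 := hs1 β.1
        have a2 := hs1 (pv γ - β.1)
        generalize (sn β.1 : K) = p at *
        generalize (sn (pv γ - β.1) : K) = q at *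
        generalize ((sg C6 β.1 (pv γ - β.1) : ℤ) : K) = s at *
        generalize τ (cf x β.1) = X at *
        generalize τ (cf y (pv γ - β.1)) = Y at *
        linear_combination (-((sn γ : K) * s * X * Y * (q * q))) * a1 - ((sn γ : K) * s * X * Y) * a2
      rw [Finset.sum_congr rfl fun β _ => e1 β]
      ring
  have hfm : ∀ v w : Lm C6 K, fm C6 (si τ v) (si τ w) = τ (fm C6 v w) := by
    intro x y
    unfold fm
    rw [map_add, map_neg, map_sum, map_sum, ← Equiv.sum_comp ρ]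
    congr 1
    · congr 1
      rw [← Equiv.sum_comp SIG_e]
      refine Finset.sum_congr rfl fun i _ => ?_
      rw [map_sum, ← Equiv.sum_comp SIG_e]
      refine Finset.sum_congr rfl fun j _ => ?_
      show (si τ x).1 (pn i) * (C6 (pn i) (pn j) : K) * (si τ y).1 (pn j) = _
      rw [SIG_fst, SIG_fst, SIG_pn, SIG_pn, hC, map_mul, map_mul, map_intCast]
    · refine Finset.sum_congr rfl fun β _ => ?_
      rw [SIG_snd x, SIG_snd (si τ x), hρ, hcf, hcf, r9, r8, r4, r2, map_mul]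
      linear_combination (τ (cf x β.1) * τ (cf y (-β.1))) * hs1 β.1
  refine ⟨hadd, hsmul, hinv, hbr, hfm, ?_, ?_, ?_⟩
  · intro γ hγ
    have hγ' : ip C6 (pv γ) (pv γ) = 2 := by rw [r1]; exact hγ
    refine SIG_ext (fun i => ?_) fun δ hδ => ?_
    · rw [SIG_fst, Prod.smul_fst, E_fst, E_fst]
      simp
    · rw [hcf, cf_smul, cf_E C6 hγ, cf_E C6 hγ']
      by_cases h : δ = pv γ
      · rw [if_pos h, if_pos (by rw [h, r2]), h, r8, map_one]
      · rw [if_neg h, if_neg (fun e => h (by rw [← e, r2])), map_zero, mul_zero, mul_zero]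
  · intro β
    refine SIG_ext (fun i => ?_) fun δ hδ => ?_
    · rw [SIG_fst, ht_fst, ht_fst, map_intCast]
      rfl
    · rw [hcf, cf_ht, cf_ht, map_zero, mul_zero]
  · intro a t v
    unfold xe
    rw [hadd, hadd, hsmul, hsmul, hbr, map_mul, map_pow, hfm]

end Pool.Agent.EXT
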