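import Pool.Agent.helper17.EXT.SpecJ

/-!
# Project EXT, block J, row JCX (helper44): the centraliser of `GS ∩ UG` in characteristic 2
-/

set_option autoImplicit false

open Finset

namespace Pool.Agent.EXT

open Pool.Agent.EXC

theorem JCX_eta : (ip C6 eta eta = 2 ∧ pv eta ≠ eta) ∧ (∀ i, 0 ≤ eta i) ∧ (∀ i, 0 ≤ pv eta i) ∧ ip C6 eta th = 1 ∧
    ip C6 (pv eta) th = 1 ∧ ip C6 eta (pv eta) = 0 ∧ ip C6 (pv eta) (pv eta) = 2 ∧ ip C6 (pv eta) eta = 0 := by
  decide +kernel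

set_option maxRecDepth 100000 in
theorem JCX_f1 : ∀ β ∈ RL, (∀ i, 0 ≤ β i) → pv β = β → 0 ≤ ip C6 eta β := by
  decide +kernel

set_option maxRecDepth 100000 in
theorem JCX_f2 : ∀ γ ∈ RL, (∀ i, 0 ≤ γ i) → pv γ ≠ γ → 0 ≤ ip C6 eta γ + ip C6 eta (pv γ) := by
  decide +kernel

set_option maxRecDepth 100000 in
theorem JCX_f3 : ∀ ε ∈ RL, ip C6 ε th = 1 → (ε ≠ th - eta → 0 ≤ ip C6 eta ε) ∧ (ε ≠ th - pv eta → 0 ≤ ip C6 (pv eta) ε) := by
  decide +kernel

theorem JCX (hLST : LST_stmt) (hRTF : RTF_stmt) (hSIG : SIG_stmt) (hSGR : SGR_stmt) (hJCM : JCM_stmt) (hJCU : JCU_stmt) (hGMT : GMT_stmt) (hACS : ACS_stmt) : JCX_stmt := by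
  intro K _ hchar g hg hcomm
  have hτ : ∀ x, (RingEquiv.refl K) ((RingEquiv.refl K) x) = x := fun x => rfl
  obtain ⟨hip, -, -, -, -, hPos, hsn1, -, -, -, -, -, -, hLth, hth1⟩ := hRTF
  obtain ⟨hS1, -, hS3, hS4, -, hS6⟩ := hSGR K (RingEquiv.refl K) hτ
  obtain ⟨hJ1, hJ2⟩ := hJCM K hchar
  obtain ⟨hA, ⟨u, hu, hgu⟩, hC, hD⟩ := hJCU K hchar g hg hcomm
  obtain ⟨he, hep, hepp, het, hept, hee, hpp, hpe⟩ := JCX_eta
  have hSRe : SR eta := he
  have hE := f_DE6.2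
  have h2 : ip C6 th th = 2 := hE.th2
  have hβ := (f_NBR 6 C6 1 th _ hE).1
  obtain ⟨hAu, hExE, hExP, -⟩ := f_EXF 6 C6 K hβ
  have h11 : (1 : K) + 1 = 0 := by rw [← hchar]; norm_num
  have hneg : (-1 : K) = 1 := by linear_combination (-1 : K) * h11
  have hself : ∀ a : K, a + a = 0 := by
    intro a
    linear_combination a * h11
  have hsn : ∀ v, (sn v : K) = 1 := by
    intro v
    rcases hsn1 v with h | h <;> rw [h]
    · exact Int.cast_one
    · rw [Int.cast_neg, Int.cast_one, hneg]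
  have hsg : ∀ v w, ((sg C6 v w : ℤ) : K) = 1 := by
    intro v w
    rcases sg_cases C6 v w with h | h <;> rw [h]
    · exact Int.cast_one
    · rw [Int.cast_neg, Int.cast_one, hneg]
  -- the element `X`
  set b : Lm C6 K := g (E C6 (-th)) with hb
  set y : K := fm C6 (E C6 (th - eta)) b with hy
  obtain ⟨X, hXG, hX⟩ := hS1 eta y hSRe
  have hXv : ∀ v, X v = xe C6 (E C6 eta) y (xe C6 (E C6 (pv eta)) y v) := by
    intro v
    have h3 := hX v
    rw [hsn eta, one_mul] at h3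
    exact h3
  have hXX : ∀ v, X (X v) = v := by
    intro v
    have h3 := hS3 eta y y X X hSRe hX hX v
    rw [hself y, map_zero, mul_zero, XAU_zero, XAU_zero] at h3
    exact h3
  have hXGE : X ∈ GE C6 K := (hS6 X hXG).1
  have hXU : X ∈ UG C6 K := by
    obtain ⟨g₁, -, hg₁⟩ := (hExP (E C6 eta) (hExE eta he.1)).2.2.2.2.1 y
    obtain ⟨g₂, -, hg₂⟩ := (hExP (E C6 (pv eta)) (hExE (pv eta) hpp)).2.2.2.2.1 y
    have h3 : X = g₁ * g₂ := by
      refine LinearEquiv.ext fun x => ?_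
      change X x = g₁ (g₂ x)
      rw [hXv x, hg₁, hg₂]
    rw [h3]
    exact (UG C6 K).mul_mem (Subgroup.subset_closure ⟨eta, he.1, hep, y, hg₁⟩)
      (Subgroup.subset_closure ⟨pv eta, hpp, hepp, _, hg₂⟩)
  have hXfm : ∀ v w, fm C6 (X v) (X w) = fm C6 v w := (hAu X hXGE).fm
  -- action of `X` on `E ε`
  have hthpos : Pos th := by
    intro i
    have : ∀ i, 0 ≤ th i := by decide
    exact this i
  have hgth : g (E C6 th) = (E C6 th : Lm C6 K) := hA th hLth hthpos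
  have hgfm : ∀ v w, fm C6 (g v) (g w) = fm C6 v w := (hAu g (hS6 g hg).1).fm
  have hfth : fm C6 (E C6 th) b = 1 := by
    rw [hb, ← hgth, hgfm, fm_E_E C6 h2 (neg_root C6 h2), if_pos rfl]
  have hXE : ∀ ε, ip C6 ε ε = 2 → ip C6 ε th = 1 → fm C6 (X (E C6 ε)) b = 0 := by
    intro ε hε hεt
    obtain ⟨f3, f4⟩ := JCX_f3 ε ((hLST ε).1 hε) hεt
    by_cases c1 : ε = th - eta
    · have i1 : ip C6 (pv eta) ε = 1 := by rw [c1, ip_sub_right, hept, hpe]; rfl
      have i2 : ip C6 eta ε = -1 := by rw [c1, ip_sub_right, het, he.1]; rfl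
      have e1 : X (E C6 ε) = (E C6 ε + y • E C6 th : Lm C6 K) := by
        rw [hXv, (f_ACT 6 C6 K (pv eta) y hpp).1 ε hε (by rw [i1]; norm_num),
          (f_ACT 6 C6 K eta y he.1).2.1 ε hε i2, hsg, mul_one]
        have e2 : eta + ε = th := by rw [c1]; abel
        rw [e2]
      rw [e1, fm_add_left, fm_smul_left, hfth, mul_one, c1]
      exact hself y
    · by_cases c2 : ε = th - pv eta
      · have i1 : ip C6 (pv eta) ε = -1 := by rw [c2, ip_sub_right, hept, hpp]; rfl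
        have i2 : ip C6 eta ε = 1 := by rw [c2, ip_sub_right, het, hee]; rfl
        have e1 : X (E C6 ε) = (E C6 ε + y • E C6 th : Lm C6 K) := by
          rw [hXv, (f_ACT 6 C6 K (pv eta) y hpp).2.1 ε hε i1, hsg, mul_one]
          have e2 : pv eta + ε = th := by rw [c2]; abel
          rw [e2, XAU_addv, XAU_smulv, (f_ACT 6 C6 K eta y he.1).1 ε hε (by rw [i2]; norm_num),
            (f_ACT 6 C6 K eta y he.1).1 th h2 (by rw [het]; norm_num)]
        rw [e1, fm_add_left, fm_smul_left, hfth, mul_one, c2, ← hD]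
        exact hself y
      · have e1 : X (E C6 ε) = (E C6 ε : Lm C6 K) := by
          rw [hXv, (f_ACT 6 C6 K (pv eta) y hpp).1 ε hε (f4 c2), (f_ACT 6 C6 K eta y he.1).1 ε hε (f3 c1)]
        rw [e1]
        exact hC ε hε hεt c1 c2
  -- the element `q`
  obtain ⟨q, hq, huq⟩ := f_QUN 6 C6 K 1 th _ hE (X * u) ((UG C6 K).mul_mem hXU hu)
  have hgq : X b = (q (E C6 (-th)) : Lm C6 K) := by
    rw [← huq, hgu]
    rfl
  obtain ⟨t, ht⟩ := f_QNF 6 C6 K 1 th _ hE q hq (by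
    intro γ hγ hγ1
    rw [← hgq]
    have e1 : fm C6 (E C6 (th - γ)) (X b) = fm C6 (X (E C6 (th - γ))) b := by
      have e2 := hXfm (X (E C6 (th - γ))) b
      rw [hXX] at e2
      exact e2
    rw [e1]
    refine hXE (th - γ) ?_ ?_
    · rw [sub_root_iff h2 hγ, ip_comm]
      exact hγ1
    · rw [ip_sub_left, h2, hγ1]
      norm_num)
  have hqG : q ∈ GS (RingEquiv.refl K) := Subgroup.subset_closure (Or.inl ⟨th, t, hLth, rfl, ht⟩)
  have hqi : ∀ w, q⁻¹ (q w) = w := fun w => q.symm_apply_apply w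
  have hqq : ∀ w, q (q⁻¹ w) = w := fun w => q.apply_symm_apply w
  have hXq : ∀ w, X (q w) = q (X w) := by
    have h3 := hJ2 eta th hSRe hLth (by rw [het]; norm_num) y t X q hX ht
    intro w
    have h4 := congrArg (fun f : Lm C6 K ≃ₗ[K] Lm C6 K => f w) h3
    exact h4
  refine ⟨t, y, X, hX, fun v hv => ?_⟩
  have key := hGMT K (RingEquiv.refl K) hτ (q⁻¹ * (X * g))
    ((GS (RingEquiv.refl K)).mul_mem ((GS (RingEquiv.refl K)).inv_mem hqG) ((GS (RingEquiv.refl K)).mul_mem hXG hg))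
    (by
      intro β hβL hβP
      change q⁻¹ (X (g (E C6 β))) = E C6 β
      rw [hA β hβL hβP]
      have h5 : 0 ≤ ip C6 eta β := JCX_f1 β ((hLST β).1 hβL.1) hβP hβL.2
      have h4 : X (E C6 β) = (E C6 β : Lm C6 K) :=
        ((hACS K (RingEquiv.refl K) hτ eta β hSRe hβL).2.2.2 y X hX).1 h5
      have h3 : q (E C6 β) = (E C6 β : Lm C6 K) := by
        rw [ht]
        refine (f_ACT 6 C6 K th t h2).1 β hβL.1 ?_
        rw [hth1]
        exact hβP 1
      rw [h4, ← h3, hqi, h3])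
    (by
      change q⁻¹ (X (g (E C6 (-th)))) = E C6 (-th)
      rw [← hb, hgq, hqi])
    (by
      intro γ hγ hγP s h hh w hw
      have hhG : h ∈ GS (RingEquiv.refl K) := (hS4 γ s h hγ hh).2
      have hγ2 : ip C6 (pv γ) (pv γ) = 2 := by rw [hip]; exact hγ.1
      have hhU : h ∈ UG C6 K := by
        obtain ⟨g₁, -, hg₁⟩ := (hExP (E C6 γ) (hExE γ hγ.1)).2.2.2.2.1 s
        obtain ⟨g₂, -, hg₂⟩ := (hExP (E C6 (pv γ)) (hExE (pv γ) hγ2)).2.2.2.2.1 ((sn γ : K) * (RingEquiv.refl K) s)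
        have h3 : h = g₁ * g₂ := by
          refine LinearEquiv.ext fun x => ?_
          change h x = g₁ (g₂ x)
          rw [hh x, hg₁, hg₂]
        rw [h3]
        exact (UG C6 K).mul_mem (Subgroup.subset_closure ⟨γ, hγ.1, hγP, s, hg₁⟩)
          (Subgroup.subset_closure ⟨pv γ, hγ2, hPos γ hγP, _, hg₂⟩)
      have hqh : ∀ x, h (q x) = q (h x) := by
        have h3 := hJ2 γ th hγ hLth (by rw [ip_comm, hth1]; exact hγP 1) s t h q hh ht
        intro x
        exact congrArg (fun f : Lm C6 K ≃ₗ[K] Lm C6 K => f x) h3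
      have hXh : ∀ x, X (h x) = h (X x) := by
        have h3 := hJ1 eta γ hSRe hγ (JCX_f2 γ ((hLST γ).1 hγ.1) hγP hγ.2) y s X h hX hh
        intro x
        exact congrArg (fun f : Lm C6 K ≃ₗ[K] Lm C6 K => f x) h3
      change q⁻¹ (X (g (h w))) = h (q⁻¹ (X (g w)))
      rw [hcomm h hhG hhU w hw, hXh]
      have h4 := hqh (q⁻¹ (X (g w)))
      rw [hqq] at h4
      rw [h4, hqi]) v hv
  have key' : q⁻¹ (X (g v)) = v := key
  have h5 : q (q⁻¹ (X (g v))) = q v := by rw [key']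
  rw [hqq] at h5
  have h6 : X (X (g v)) = X (q v) := by rw [h5]
  rw [hXX, hXq] at h6
  rw [h6, ht]

end Pool.Agent.EXT
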