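import Pool.Agent.helper32.EXT.Spec7

/-!
# Project EXT, row Z7A (helper44)
-/

set_option autoImplicit false

open Finset

namespace Pool.Agent.EXT

open Pool.Agent.EXC

theorem Z7A_data : (m7 0 = -1 ∧ m7 1 = 0 ∧ m7 2 = -1 ∧ m7 3 = 0) ∧ (r7 0 = 7 ∧ r7 1 = 7 ∧ r7 2 = 5 ∧ r7 3 = 5) ∧
    (hs7 0).length = 3 ∧ (hs7 1).length = 3 ∧ (hs7 2).length = 2 ∧ (hs7 3).length = 2 := by
  decide +kernel

theorem Z7A (hZ7G : Z7G_stmt) : Z7A_stmt := by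
  intro K _ τ hτ a b m y hm hab hy
  have key : ∀ j : Fin 4, m7 j = m → ∀ r k : ℕ, r7 j = r → (hs7 j).length = k → HO r k y := by
    intro j hj r k hr hk
    obtain ⟨c1, c2, c3, c4⟩ := ch7_spec j
    rw [← hr, ← hk]
    refine hZ7G K τ hτ (kd7 j) (k7 j) (ch7 j) (r7 j) (hs7 j) c3 c1 c2 c4 (zw7_r j) (zw7_1 j) a b y ?_ hy
    rw [lt7_th.2 j, hj]
    exact hab
  obtain ⟨⟨a0, a1, a2, a3⟩, ⟨b0, b1, b2, b3⟩, l0, l1, l2, l3⟩ := Z7A_data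
  rcases hm with h | h
  · exact ⟨key 0 (a0.trans h.symm) 7 3 b0 l0, key 2 (a2.trans h.symm) 5 2 b2 l2⟩
  · exact ⟨key 1 (a1.trans h.symm) 7 3 b1 l1, key 3 (a3.trans h.symm) 5 2 b3 l3⟩

end Pool.Agent.EXT
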